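import Pool.Agent.Helper89.GW.Stmts

/-!
# MP_897da6_gt, module JCL: the join is compact
-/

set_option autoImplicit false

open scoped ContDiff Topology
open Set Filter

namespace GW

theorem jcl_cont {φ : ℝ × ℝ → ℝ} (h : ContDiff ℝ ∞ φ) : Continuous (dX φ) ∧ Continuous (dT φ) := by
  have h1 : Continuous (fderiv ℝ φ) := h.continuous_fderiv (by simp)
  exact ⟨h1.clm_apply continuous_const, h1.clm_apply continuous_const⟩

theorem st_JCL (hH : ST_HHF) : ST_JCL := by
  intro φ u hφ hu hsupp
  obtain ⟨hh1, hh2, -, -, hh5, -⟩ := hH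
  have hee : (0 : ℝ) < ee := by
    unfold ee
    norm_num
  obtain ⟨cφ1, cφ2⟩ := jcl_cont hφ
  obtain ⟨cu1, cu2⟩ := jcl_cont hu
  have hhc : Continuous hh := hh1.continuous
  have huc : Continuous u := hu.continuous
  obtain ⟨C, hC⟩ : ∃ C : Set ((ℝ × ℝ) × ℝ), C = (tsupport u ×ˢ Icc (-1) 1) ∩
    {a | a.2 ^ 2 = hh (u a.1 / ee)} := ⟨_, rfl⟩
  have hCc : IsCompact C := by
    rw [hC]
    refine (IsCompact.prod hsupp isCompact_Icc).inter_right (isClosed_eq (by fun_prop) ?_)
    exact hhc.comp ((huc.comp continuous_fst).div_const _)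
  have hf : Continuous (fun a : (ℝ × ℝ) × ℝ => (![a.1.1, dX φ a.1 + a.2 * dX u a.1, a.1.2,
      dT φ a.1 + a.2 * dT u a.1] : E)) := by
    refine continuous_pi fun i => ?_
    fin_cases i
    · exact continuous_fst.comp continuous_fst
    · exact (cφ1.comp continuous_fst).add (continuous_snd.mul (cu1.comp continuous_fst))
    · exact continuous_snd.comp continuous_fst
    · exact (cφ2.comp continuous_fst).add (continuous_snd.mul (cu2.comp continuous_fst))
  have hE : prj (Jn φ u) = (fun a : (ℝ × ℝ) × ℝ => (![a.1.1, dX φ a.1 + a.2 * dX u a.1, a.1.2,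
      dT φ a.1 + a.2 * dT u a.1] : E)) '' C := by
    ext q
    constructor
    · rintro ⟨v, s, hs, h1, h3, -⟩
      have h4 : (0 : ℝ) ≤ hh (u (pr q) / ee) := by
        have h4' : s ^ 2 = hh (u (pr q) / ee) := hs
        rw [← h4']
        exact sq_nonneg s
      have h5 : 1 / 2 ≤ u (pr q) / ee := by
        by_contra h5
        push Not at h5
        rw [hh2 _ (by linarith)] at h4
        linarith
      have h6 : u (pr q) ≠ 0 := by
        intro h6
        rw [h6, zero_div] at h5
        linarith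
      have h7 : s ^ 2 ≤ 1 := by
        have h7' : s ^ 2 = hh (u (pr q) / ee) := hs
        rw [h7']
        exact hh5 _
      refine ⟨(pr q, s), ?_, ?_⟩
      · rw [hC]
        refine ⟨⟨subset_tsupport u h6, ?_⟩, hs⟩
        show s ∈ Icc (-1) 1
        rw [mem_Icc, ← abs_le]
        exact (sq_le_one_iff_abs_le_one s).1 h7
      · funext i
        fin_cases i
        · rfl
        · exact h1.symm
        · rfl
        · exact h3.symm
    · rintro ⟨⟨z, s⟩, hzs, rfl⟩
      rw [hC] at hzs
      have hs : s ^ 2 = hh (u z / ee) := hzs.2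
      refine ⟨φ z + Real.sign s * (ee * gg (u z / ee)), s, ?_, ?_, ?_, ?_⟩
      · exact hs
      · rfl
      · rfl
      · rfl
  rw [hE]
  exact hCc.image hf

end GW
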