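import Pool.Agent.Helper89.GW.Stmts

/-!
# MP_897da6_gt, module SLOC: splines are local
-/

set_option autoImplicit false

open scoped ContDiff Topology
open Set Filter

namespace GW

theorem sloc_iv {e : El} {c : ℤ} (h : c ∈ e.iv) : c ∈ e.nd ∧ c + 1 ∈ e.nd := by
  cases e with
  | near c0 =>
    simp only [El.iv, El.nd, List.mem_cons, List.not_mem_nil, or_false] at h ⊢
    rcases h with h | h
    · subst h
      constructor
      · left; rfl
      · right; left; ring
    · subst h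
      constructor
      · right; left; rfl
      · right; right; rfl
  | cell c0 =>
    simp only [El.iv, El.nd, List.mem_cons, List.not_mem_nil, or_false] at h ⊢
    subst h
    constructor
    · left; rfl
    · right; rfl

theorem st_SLOC (h1 : ST_SPD) (h2 : ST_ELEM) (h3 : ST_LAM) : ST_SLOC := by
  intro z z' X T x t hz hz' hX hT hzz
  obtain ⟨-, -, -, hB0, hL0, -⟩ := h3
  obtain ⟨hXB, hXL, -⟩ := h2.2 X x hX
  obtain ⟨hTB, hTL, -⟩ := h2.2 T t hT
  have kL : ∀ c : ℤ, c ∉ X.nd → Lam (x - c) = 0 := fun c hc =>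
    le_antisymm (not_lt.1 fun h => hc ((hXL c).1 h)) (hL0 _)
  have kB : ∀ c : ℤ, c ∉ X.iv → Bx (x - c) = 0 := fun c hc =>
    le_antisymm (not_lt.1 fun h => hc ((hXB c).1 h)) (hB0 _)
  have lL : ∀ c : ℤ, c ∉ T.nd → Lam (t - c) = 0 := fun c hc =>
    le_antisymm (not_lt.1 fun h => hc ((hTL c).1 h)) (hL0 _)
  have lB : ∀ c : ℤ, c ∉ T.iv → Bx (t - c) = 0 := fun c hc =>
    le_antisymm (not_lt.1 fun h => hc ((hTB c).1 h)) (hB0 _)
  obtain ⟨-, -, dx, dt⟩ := h1 z hz
  obtain ⟨-, -, dx', dt'⟩ := h1 z' hz'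
  refine ⟨?_, ?_, ?_⟩
  · unfold sp Sp
    refine Finset.sum_congr rfl fun c _ => Finset.sum_congr rfl fun k _ => ?_
    show (z c k : ℝ) * Lam (x - c) * Lam (t - k) = (z' c k : ℝ) * Lam (x - c) * Lam (t - k)
    by_cases hc : c ∈ X.nd
    · by_cases hk : k ∈ T.nd
      · rw [hzz c hc k hk]
      · rw [lL k hk, mul_zero, mul_zero]
    · rw [kL c hc]
      ring
  · rw [dx, dx']
    refine Finset.sum_congr rfl fun c _ => Finset.sum_congr rfl fun k _ => ?_
    by_cases hc : c ∈ X.iv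
    · by_cases hk : k ∈ T.nd
      · rw [hzz c (sloc_iv hc).1 k hk, hzz (c + 1) (sloc_iv hc).2 k hk]
      · rw [lL k hk, mul_zero, mul_zero]
    · rw [kB c hc]
      ring
  · rw [dt, dt']
    refine Finset.sum_congr rfl fun c _ => Finset.sum_congr rfl fun k _ => ?_
    by_cases hc : c ∈ X.nd
    · by_cases hk : k ∈ T.iv
      · rw [hzz c hc k (sloc_iv hk).1, hzz c hc (k + 1) (sloc_iv hk).2]
      · rw [lB k hk, mul_zero, mul_zero]
    · rw [kL c hc]
      ring

end GW
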